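import Pool.Agent.Helper3.AK.Final

/-!
# Every fixed number `k ≥ 2` of random elements of `A_n` expands on all `r`-tuples, `r ≤ n ^ α`,
for every `α < α_k`, where `α_2 = 1 / 3`, `α_3 = 2 / 3`, `α_{k+1} = (1 + α_k) / 2`
-/

namespace Pool.Agent.Helper6.Retired.AllKTuples

open Filter Topology

variable {n k : ℕ}

/-- Transition operator of the random walk on `A_n` whose steps multiply on the right by a
uniformly chosen member of the multiset `x_1, x_1⁻¹, ..., x_k, x_k⁻¹`. -/
noncomputable def transition (x : Fin k → alternatingGroup (Fin n))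
    (f : alternatingGroup (Fin n) → ℝ) : alternatingGroup (Fin n) → ℝ := fun g =>
  (2 * (k : ℝ))⁻¹ * ∑ i, (f (g * x i) + f (g * (x i)⁻¹))

/-- Spectral gap at least `ε` on the functions on `A_n` which depend only on the `r` coordinates
`g⁻¹ 0, ..., g⁻¹ (r - 1)`, that is, on the functions invariant under left multiplication by the
even permutations fixing the first `r` points. -/
def CoordinateGap (x : Fin k → alternatingGroup (Fin n)) (r : ℕ) (ε : ℝ) : Prop :=
  ∀ f : alternatingGroup (Fin n) → ℝ, ∑ g, f g = 0 →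
    (∀ h g : alternatingGroup (Fin n), (∀ i : Fin n, i.val < r →
      (h : Equiv.Perm (Fin n)) i = i) → f (h * g) = f g) →
    ∑ g, f g * transition x f g ≤ (1 - ε) * ∑ g, f g ^ 2

/-- Transition operator of the random walk on the `r`-tuples of distinct points (the Schreier
graph): a tuple is moved by a uniformly chosen member of `x_1, x_1⁻¹, ..., x_k, x_k⁻¹`. -/
noncomputable def tupleTransition (x : Fin k → alternatingGroup (Fin n)) (r : ℕ)
    (φ : (Fin r ↪ Fin n) → ℝ) : (Fin r ↪ Fin n) → ℝ := fun a =>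
  (2 * (k : ℝ))⁻¹ * ∑ i, (φ (a.trans (x i : Equiv.Perm (Fin n)).toEmbedding) +
    φ (a.trans ((x i)⁻¹ : Equiv.Perm (Fin n)).toEmbedding))

/-- Spectral gap at least `ε` of the random walk on the `r`-tuples of distinct points. -/
def TupleGap (x : Fin k → alternatingGroup (Fin n)) (r : ℕ) (ε : ℝ) : Prop :=
  ∀ φ : (Fin r ↪ Fin n) → ℝ, ∑ a, φ a = 0 →
    ∑ a, φ a * tupleTransition x r φ a ≤ (1 - ε) * ∑ a, φ a ^ 2

/-- `k` independent uniformly random elements of `A_n` have, with probability tending to one,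
spectral gap at least `ε` on the `r`-tuples of distinct points, and on the functions of `r`
coordinates, for all `r ≤ n ^ α` simultaneously. -/
def ExpandsUpTo (k : ℕ) (α ε : ℝ) : Prop :=
  Tendsto (fun n : ℕ =>
    (Nat.card {x : Fin k → alternatingGroup (Fin n) // ∀ r : ℕ, (r : ℝ) ≤ (n : ℝ) ^ α →
      CoordinateGap x r ε ∧ TupleGap x r ε} : ℝ) /
      Nat.card (Fin k → alternatingGroup (Fin n))) atTop (𝓝 1)

/-- (1) For every `α < 1` there is `ε > 0` such that for every fixed `k ≥ 2` with
`α < 1 - (2 / 3) / 2 ^ (k - 2)`, `k` independent uniformly random elements of `A_n` have, with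
probability tending to one, spectral gap at least `ε` on the `r`-tuples of distinct points for
all `r ≤ n ^ α` simultaneously.  (2) For `α < 1 / 2` every `ε < 1` can be reached, for large
`k`. -/
theorem result :
    (∀ α : ℝ, α < 1 → ∃ ε : ℝ, 0 < ε ∧ ∀ k : ℕ, 2 ≤ k → α < 1 - 2 / 3 / 2 ^ (k - 2) →
      ExpandsUpTo k α ε) ∧
    (∀ α ε : ℝ, α < 1 / 2 → ε < 1 → ∃ K : ℕ, ∀ k : ℕ, K ≤ k → ExpandsUpTo k α ε) :=
  ⟨fun α hα => Pool.Agent.Helper3.AK.main_uniform α hα,
    fun α ε hα hε => Pool.Agent.Helper6.H.main2 α ε hα hε⟩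

end Pool.Agent.Helper6.Retired.AllKTuples
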