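import Pool.Agent.Helper6.NX.Main3
import Pool.Agent.Helper6.NX.Mix
import Pool.Agent.Helper6.E.Eig

/-!
# Near expansion and near-linear mixing of a bounded number of random elements of `A_n`
-/

set_option linter.unusedSectionVars false

namespace Pool.Agent.Helper6.Retired.NearExpanders

open Matrix Filter Topology Pool.Agent.Helper15.An

variable {n k : ℕ}

/-- Transition matrix of the random walk on `A_n` whose steps multiply on the right by a uniformly
chosen member of the multiset `x_1, x_1⁻¹, ..., x_k, x_k⁻¹`:
`(P f) g = (1 / 2k) * ∑ i, (f (g * x i) + f (g * (x i)⁻¹))`. -/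
noncomputable def transition (x : Fin k → alternatingGroup (Fin n)) :
    Matrix (alternatingGroup (Fin n)) (alternatingGroup (Fin n)) ℝ :=
  fun g h => (2 * (k : ℝ))⁻¹ *
    ∑ i, ((if h = g * x i then (1 : ℝ) else 0) + (if h = g * (x i)⁻¹ then (1 : ℝ) else 0))

theorem transition_isHermitian (x : Fin k → alternatingGroup (Fin n)) :
    (transition x).IsHermitian := by
  ext g h
  rw [conjTranspose_apply]
  unfold transition
  simp only [star_trivial]
  congr 1
  refine Finset.sum_congr rfl fun i _ => ?_
  rw [add_comm]
  congr 1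
  · have : g = h * (x i)⁻¹ ↔ h = g * x i := by
      rw [eq_mul_inv_iff_mul_eq]; exact eq_comm
    simp only [this]
  · have : g = h * x i ↔ h = g * (x i)⁻¹ := by
      rw [eq_mul_inv_iff_mul_eq]; exact eq_comm
    simp only [this]

/-- The second largest eigenvalue, counted with multiplicity, of the transition matrix
(`eigenvalues₀` lists the eigenvalues in decreasing order; the value `1` for the trivial group
is a dummy value). -/
noncomputable def secondEigenvalue (x : Fin k → alternatingGroup (Fin n)) : ℝ :=
  if h : 1 < Fintype.card (alternatingGroup (Fin n)) then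
    (transition_isHermitian x).eigenvalues₀ ⟨1, h⟩
  else 1

/-- `x_1, ..., x_k` generate `A_n` and the spectral gap of their random walk is at least `ε`. -/
def IsExpanding (ε : ℝ) (x : Fin k → alternatingGroup (Fin n)) : Prop :=
  Subgroup.closure (Set.range x) = ⊤ ∧ ε ≤ 1 - secondEigenvalue x

/-- Transition matrix of the lazy walk: with probability `1/2` it stays where it is, otherwise it
makes a step of the walk above. -/
noncomputable def lazyTransition (x : Fin k → alternatingGroup (Fin n)) :
    Matrix (alternatingGroup (Fin n)) (alternatingGroup (Fin n)) ℝ :=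
  (1 / 2 : ℝ) • (1 + transition x)

/-- After any number `t ≥ T` of steps of the lazy walk, from any starting point, every element of
`A_n` has probability within a factor `1 ± 1/2` of `1 / |A_n|`. -/
def EquidistributesBy (T : ℝ) (x : Fin k → alternatingGroup (Fin n)) : Prop :=
  ∀ t : ℕ, T ≤ t → ∀ g h : alternatingGroup (Fin n),
    |(lazyTransition x ^ t) g h - 1 / (Fintype.card (alternatingGroup (Fin n)) : ℝ)| ≤
      1 / 2 * (1 / (Fintype.card (alternatingGroup (Fin n)) : ℝ))

theorem transition_mulVec (x : Fin k → alternatingGroup (Fin n))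
    (f : alternatingGroup (Fin n) → ℝ) (g : alternatingGroup (Fin n)) :
    (transition x *ᵥ f) g = (2 * (k : ℝ))⁻¹ * ∑ i, (f (g * x i) + f (g * (x i)⁻¹)) := by
  have h1 : (transition x *ᵥ f) g = ∑ h, transition x g h * f h := rfl
  rw [h1]
  unfold transition
  simp_rw [mul_assoc]
  rw [← Finset.mul_sum]
  congr 1
  simp_rw [Finset.sum_mul]
  rw [Finset.sum_comm]
  refine Finset.sum_congr rfl fun i _ => ?_
  simp_rw [add_mul]
  rw [Finset.sum_add_distrib]
  simp

theorem isExpanding_of_good (hn : 4 ≤ n) (hk : 0 < k) (F : PW (Equiv.Perm (Fin n))) {ε : ℝ}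
    (hε : 0 < ε) (x : Fin k → alternatingGroup (Fin n)) (hgood : Good F (tupW x) n ε) :
    IsExpanding ε x := by
  have hk' : (2 * (k : ℝ)) ≠ 0 := by positivity
  have hc : ∀ f : alternatingGroup (Fin n) → ℝ, f ≠ 0 → ∑ g, f g = 0 → ∀ a : ℝ, 1 - ε < a →
      transition x *ᵥ f ≠ a • f := by
    intro f hf hs a ha hPf
    refine Pool.Agent.Helper6.E.eig_claim F x ε hgood f hf hs a ha fun g => ?_
    rw [← transition_mulVec, hPf]
    rfl
  constructor
  · by_contra hne
    set H := Subgroup.closure (Set.range x) with hH
    classical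
    set c : ℝ := ((Finset.univ.filter fun g : alternatingGroup (Fin n) => g ∈ H).card : ℝ) /
      Fintype.card (alternatingGroup (Fin n)) with hcdef
    have hGpos : (0 : ℝ) < Fintype.card (alternatingGroup (Fin n)) := by
      exact_mod_cast Fintype.card_pos
    have hcpos : 0 < c := by
      have : 0 < (Finset.univ.filter fun g : alternatingGroup (Fin n) => g ∈ H).card :=
        Finset.card_pos.2 ⟨1, by simp [H.one_mem]⟩
      have h1 : (0 : ℝ) <
          ((Finset.univ.filter fun g : alternatingGroup (Fin n) => g ∈ H).card : ℝ) := by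
        exact_mod_cast this
      positivity
    obtain ⟨g0, hg0⟩ : ∃ g, g ∉ H := by
      by_contra hall
      push Not at hall
      exact hne (eq_top_iff.2 fun g _ => hall g)
    have hmem : ∀ i, x i ∈ H := fun i => Subgroup.subset_closure ⟨i, rfl⟩
    refine hc (fun g => (if g ∈ H then (1 : ℝ) else 0) - c) ?_ ?_ 1 (by linarith) ?_
    · intro h
      have h1 := congrFun h g0
      simp only [if_neg hg0, Pi.zero_apply, zero_sub, neg_eq_zero] at h1
      exact hcpos.ne' h1
    · rw [Finset.sum_sub_distrib, Finset.sum_const, Finset.card_univ, nsmul_eq_mul, hcdef,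
        mul_div_cancel₀ _ hGpos.ne', Finset.sum_boole, sub_self]
    · ext g
      rw [transition_mulVec, one_smul]
      have h1 : ∀ i, ((if g * x i ∈ H then (1 : ℝ) else 0) - c) +
          ((if g * (x i)⁻¹ ∈ H then (1 : ℝ) else 0) - c) =
          2 * ((if g ∈ H then (1 : ℝ) else 0) - c) := by
        intro i
        have h2 : g * x i ∈ H ↔ g ∈ H := H.mul_mem_cancel_right (hmem i)
        have h3 : g * (x i)⁻¹ ∈ H ↔ g ∈ H := H.mul_mem_cancel_right (H.inv_mem (hmem i))
        simp only [h2, h3]
        ring
      simp_rw [h1]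
      rw [Finset.sum_const, Finset.card_univ, Fintype.card_fin, nsmul_eq_mul]
      field_simp
  · unfold secondEigenvalue
    have hcard : 1 < Fintype.card (alternatingGroup (Fin n)) := by
      have h1 : Nontrivial (Fin n) := Fin.nontrivial_iff_two_le.2 (by omega)
      have h2 := two_mul_card_alternatingGroup (α := Fin n)
      rw [Fintype.card_perm, Fintype.card_fin] at h2
      have h3 : 4 ≤ n.factorial := hn.trans (Nat.self_le_factorial n)
      omega
    rw [dif_pos hcard]
    have h1 := second_eig_le (transition x) (transition_isHermitian x) hcard (by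
      ext g
      rw [transition_mulVec]
      simp only [Finset.sum_const, Finset.card_univ, Fintype.card_fin, nsmul_eq_mul]
      field_simp
      norm_num) (1 - ε) hc
    linarith

theorem IsExpanding.mono {ε ε' : ℝ} {x : Fin k → alternatingGroup (Fin n)}
    (h : IsExpanding ε x) (hε : ε' ≤ ε) : IsExpanding ε' x := ⟨h.1, hε.trans h.2⟩

theorem lazy_pow (x : Fin k → alternatingGroup (Fin n)) (t : ℕ)
    (g h : alternatingGroup (Fin n)) :
    (lazyTransition x ^ t) g h =
      (Pool.Agent.Helper6.T5.lwalk x)^[t] (fun b => if b = h then 1 else 0) g := by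
  induction t generalizing g with
  | zero => simp [Matrix.one_apply]
  | succ t ih =>
    rw [Function.iterate_succ_apply', pow_succ', Matrix.mul_apply]
    have h1 : (fun b => (lazyTransition x ^ t) b h) =
        (Pool.Agent.Helper6.T5.lwalk x)^[t] (fun b => if b = h then 1 else 0) := by
      funext b
      exact ih b
    rw [← h1]
    have h2 : ∑ j, lazyTransition x g j * (lazyTransition x ^ t) j h =
        (lazyTransition x *ᵥ (fun b => (lazyTransition x ^ t) b h)) g := rfl
    rw [h2]
    unfold lazyTransition
    rw [smul_mulVec, add_mulVec, one_mulVec, Pi.smul_apply, Pi.add_apply, transition_mulVec,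
      smul_eq_mul]
    rfl

theorem whp_le_one (p : (Fin k → alternatingGroup (Fin n)) → Prop) :
    (Nat.card {x // p x} : ℝ) / Nat.card (Fin k → alternatingGroup (Fin n)) ≤ 1 := by
  apply div_le_one_of_le₀ _ (Nat.cast_nonneg _)
  exact_mod_cast Nat.card_le_card_of_injective _ Subtype.val_injective

theorem whp_mono {p q : (Fin k → alternatingGroup (Fin n)) → Prop} (h : ∀ x, p x → q x) :
    (Nat.card {x // p x} : ℝ) / Nat.card (Fin k → alternatingGroup (Fin n)) ≤
      (Nat.card {x // q x} : ℝ) / Nat.card (Fin k → alternatingGroup (Fin n)) := by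
  refine div_le_div_of_nonneg_right ?_ (Nat.cast_nonneg _)
  refine Nat.cast_le.2 (Nat.card_le_card_of_injective (fun x => ⟨x.1, h _ x.2⟩) ?_)
  intro a b hab
  exact Subtype.ext (by simpa using congrArg Subtype.val hab)

/-- There is a constant `C` such that for every fixed `k ≥ 3`, `k` independent uniformly random
elements `x_1, ..., x_k` of `A_n` have, with probability tending to one as `n → ∞`, the following
properties: they generate `A_n`, the spectral gap `1 - λ₂` of their random walk is at least
`n ^ (-C k / 2 ^ k)`, and after any number `t ≥ n ^ (1 + C k / 2 ^ k)` of steps of the lazy walk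
every element of `A_n` has probability within a factor `1 ± 1/2` of `1 / |A_n|`. -/
theorem result : ∃ C : ℝ, 0 < C ∧ ∀ k : ℕ, 3 ≤ k →
    Tendsto (fun n : ℕ =>
      (Nat.card {x : Fin k → alternatingGroup (Fin n) //
        IsExpanding ((n : ℝ) ^ (-(C * k / 2 ^ k))) x ∧
          EquidistributesBy ((n : ℝ) ^ (1 + C * k / 2 ^ k)) x} : ℝ) /
        Nat.card (Fin k → alternatingGroup (Fin n))) atTop (𝓝 1) := by
  obtain ⟨C, hC, h⟩ := Pool.Agent.Helper6.NX.main_explicit
  refine ⟨2 * C, by linarith, fun k hk => ?_⟩
  have hk0 : (0 : ℝ) < k := by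
    have : 0 < k := by omega
    exact_mod_cast this
  set γ : ℝ := 2 * C * k / 2 ^ k with hγdef
  have hγ : 0 < γ := by rw [hγdef]; positivity
  have hγ2 : C * k / 2 ^ k = γ / 2 := by rw [hγdef]; ring
  have hk' := h k hk
  rw [hγ2] at hk'
  refine tendsto_of_tendsto_of_tendsto_of_le_of_le' hk' tendsto_const_nhds ?_
    (Eventually.of_forall fun n => whp_le_one _)
  filter_upwards [Pool.Agent.Helper6.NX.ev_mix γ hγ, eventually_ge_atTop 4] with n h1 hn
  have hn0 : (0 : ℝ) < n := by
    have : 0 < n := by omega
    exact_mod_cast this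
  have hn1 : (1 : ℝ) ≤ n := by
    have : 1 ≤ n := by omega
    exact_mod_cast this
  refine whp_mono fun x hx => ?_
  obtain ⟨F, hF⟩ := hx
  have hg : 0 < (n : ℝ) ^ (-(γ / 2)) := Real.rpow_pos_of_pos hn0 _
  refine ⟨(isExpanding_of_good hn (by omega) F hg x hF).mono
    (Real.rpow_le_rpow_of_exponent_le hn1 (by linarith)), fun t ht g h' => ?_⟩
  rw [lazy_pow]
  exact Pool.Agent.Helper6.NX.mixt n k t x _ (by omega) hg
    (Real.rpow_le_one_of_one_le_of_nonpos hn1 (by linarith))
    (fun f hf => Pool.Agent.Helper6.NX.gap_fun F x hF f hf) (h1.2 t ht) g h'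

end Pool.Agent.Helper6.Retired.NearExpanders
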